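import Mathlib

namespace Pool.Agent.Results.MP_dc78ae_al.Commutator

open Filter

/-- the vector of letter counts of the reduced word -/
def wp {m : ℕ} (w : FreeGroup (Fin m)) : Fin m → ℝ :=
  fun i => (w.toWord.countP fun x => x.1 = i : ℕ)

/-- open cones -/
def IsOpenCone {m : ℕ} (C : Set (Fin m → ℝ)) : Prop :=
  IsOpen C ∧ ∀ t : ℝ, 0 < t → ∀ x ∈ C, t • x ∈ C

/-- `ν_H` of the part of the cone with `R ≤ ‖x‖₁ < R + 1` -/
noncomputable def cnt {m : ℕ} (H : Subgroup (FreeGroup (Fin m))) (C : Set (Fin m → ℝ)) (R : ℝ) :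
    ℕ∞ :=
  {w | w ∈ H ∧ R ≤ ∑ i, |wp w i| ∧ ∑ i, |wp w i| < R + 1 ∧ wp w ∈ C}.encard

noncomputable def tau {m : ℕ} (H : Subgroup (FreeGroup (Fin m))) (C : Set (Fin m → ℝ)) : EReal :=
  limsup (fun R : ℝ => ((R⁻¹ : ℝ) : EReal) * ENNReal.log (cnt H C R)) atTop

noncomputable def psi {m : ℕ} (H : Subgroup (FreeGroup (Fin m))) (r : Fin m → ℝ) : EReal :=
  ⨅ C : Set (Fin m → ℝ), ⨅ _ : IsOpenCone C ∧ r ∈ C, tau H C

variable {m : ℕ}

theorem sum_countP (L : List (Fin m × Bool)) :
    ∑ i, (L.countP fun x => x.1 = i) = L.length := by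
  induction L with
  | nil => simp
  | cons x L ih => simp [List.countP_cons, Finset.sum_add_distrib, ih]

theorem sum_wp (w : FreeGroup (Fin m)) : ∑ i, |wp w i| = w.norm := by
  simp only [wp, Nat.abs_cast]
  rw [← Nat.cast_sum, sum_countP, FreeGroup.norm]

def S (H : Subgroup (FreeGroup (Fin m))) (C : Set (Fin m → ℝ)) (n : ℕ) :
    Set (FreeGroup (Fin m)) := {w | w ∈ H ∧ w.norm = n ∧ wp w ∈ C}

theorem S_fin (H : Subgroup (FreeGroup (Fin m))) (C : Set (Fin m → ℝ)) (n : ℕ) :
    (S H C n).Finite :=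
  ((List.finite_length_le (Fin m × Bool) n).preimage FreeGroup.toWord_injective.injOn).subset
    fun _ hw => hw.2.1.le

theorem cnt_eq (H : Subgroup (FreeGroup (Fin m))) (C : Set (Fin m → ℝ)) (R : ℝ) (hR : 0 ≤ R) :
    cnt H C R = (S H C ⌈R⌉₊).ncard := by
  rw [(S_fin H C _).cast_ncard_eq, cnt]
  congr 1
  ext w
  simp only [S, Set.mem_ofPred_eq, sum_wp]
  refine and_congr_right fun _ => ?_
  rw [← and_assoc]
  refine and_congr_left fun _ => ⟨fun h => ?_, fun h => ?_⟩
  · refine le_antisymm ?_ (Nat.ceil_le.2 h.1)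
    have := Nat.le_ceil R
    have : (w.norm : ℝ) < (⌈R⌉₊ + 1 : ℕ) := by push_cast; linarith [h.2]
    exact Nat.lt_succ_iff.1 (by exact_mod_cast this)
  · rw [h]
    exact ⟨Nat.le_ceil R, Nat.ceil_lt_add_one hR⟩

theorem ab_eq {A : Type} [CommGroup A] (f : FreeGroup (Fin m) →* A) {L L' : List (Fin m × Bool)}
    (h : L.Perm L') : f (FreeGroup.mk L) = f (FreeGroup.mk L') := by
  have key : ∀ L : List (Fin m × Bool),
      f (FreeGroup.mk L) = (L.map fun x => f (FreeGroup.mk [x])).prod := by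
    intro L
    induction L with
    | nil => exact map_one f
    | cons x L ih =>
      rw [List.map_cons, List.prod_cons, ← ih, ← map_mul]
      rfl
  rw [key, key]
  exact (h.map _).prod_eq

theorem exists_pad (hm : 2 ≤ m) (L L' : List (Fin m × Bool)) (h : FreeGroup.IsReduced L)
    (h' : FreeGroup.IsReduced L') (hL : L' ≠ []) :
    ∃ x : Fin m × Bool, FreeGroup.IsReduced (L ++ [x] ++ L' ++ [(x.1, !x.2)]) := by
  let d : Fin m × Bool := (⟨0, by omega⟩, true)
  obtain ⟨x, -, hx⟩ := Finset.exists_mem_notMem_of_card_lt_card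
    (s := {((L.getLast?.getD d).1, !(L.getLast?.getD d).2),
      ((L'.head?.getD d).1, !(L'.head?.getD d).2), L'.getLast?.getD d}) (t := Finset.univ)
    (lt_of_le_of_lt Finset.card_le_three (by simp; omega))
  simp only [Finset.mem_insert, Finset.mem_singleton, not_or] at hx
  obtain ⟨h1, h2, h3⟩ := hx
  refine ⟨x, List.isChain_append.2 ⟨List.isChain_append.2 ⟨List.isChain_append.2
    ⟨h, List.isChain_singleton _, ?_⟩, h', ?_⟩, List.isChain_singleton _, ?_⟩⟩
  · intro a ha y hy
    obtain rfl : x = y := by simpa using hy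
    rw [Option.mem_def.1 ha] at h1
    obtain ⟨a, s⟩ := a
    obtain ⟨y, t⟩ := x
    rintro (rfl : a = y)
    cases s <;> cases t <;> simp_all
  · intro a ha y hy
    obtain rfl : x = a := by simpa using ha
    rw [Option.mem_def.1 hy] at h2
    obtain ⟨a, s⟩ := x
    obtain ⟨y, t⟩ := y
    rintro (rfl : a = y)
    cases s <;> cases t <;> simp_all
  · intro a ha y hy
    obtain rfl : (x.1, !x.2) = y := by simpa using hy
    rw [List.getLast?_append_of_ne_nil _ hL] at ha
    rw [Option.mem_def.1 ha] at h3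
    obtain ⟨a, s⟩ := a
    obtain ⟨y, t⟩ := x
    rintro (rfl : a = y)
    cases s <;> cases t <;> simp_all

theorem core (hm : 2 ≤ m) (N : Subgroup (FreeGroup (Fin m))) (hN : commutator _ ≤ N)
    (C C' : Set (Fin m → ℝ)) (n : ℕ) (hn : 1 ≤ n)
    (hC : ∀ v ∈ C', ∑ i, |v i| = n → ∀ i, v + v + Pi.single i 2 ∈ C) :
    (S ⊤ C' n).ncard ^ 2 ≤ (S N C (2 * n + 2)).ncard * ((n + 1) ^ (2 * m)) ^ 2 := by
  classical
  let s := (S_fin ⊤ C' n).toFinset
  have hs : ∀ w ∈ s, w.toWord.length = n ∧ wp w ∈ C' := fun w hw =>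
    ((Set.Finite.mem_toFinset _).1 hw).2
  have key := Finset.card_le_mul_card_image_of_maps_to (s := s)
    (f := fun w x => w.toWord.count x)
    (t := Fintype.piFinset fun _ : Fin m × Bool => Finset.range (n + 1))
    (fun w hw => Fintype.mem_piFinset.2 fun x => Finset.mem_range.2
      (Nat.lt_succ_of_le (List.count_le_length.trans (hs w hw).1.le)))
    (S N C (2 * n + 2)).ncard.sqrt (fun b _ => ?_)
  · rw [Set.ncard_eq_toFinset_card _ (S_fin ⊤ C' n)]
    rw [Fintype.card_piFinset] at key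
    simp only [Finset.card_range, Finset.prod_const, Finset.card_univ, Fintype.card_prod,
      Fintype.card_fin, Fintype.card_bool] at key
    rw [mul_comm m 2] at key
    refine (Nat.pow_le_pow_left key 2).trans ?_
    rw [mul_pow]
    exact Nat.mul_le_mul_right _ (Nat.sqrt_le' _)
  set B := s.filter fun w => (fun x => w.toWord.count x) = b with hB
  have hp : ∀ p : B × B, ∃ x : Fin m × Bool, FreeGroup.IsReduced
      (p.1.1.toWord ++ [x] ++ p.2.1⁻¹.toWord ++ [(x.1, !x.2)]) := fun p =>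
    exists_pad hm _ _ FreeGroup.isReduced_toWord FreeGroup.isReduced_toWord (by
      have := (hs _ (Finset.mem_filter.1 p.2.2).1).1
      rw [← List.length_pos_iff, FreeGroup.toWord_inv, FreeGroup.invRev_length]
      omega)
  choose x hx using hp
  have hl : ∀ w : B, w.1.toWord.length = n := fun w => (hs _ (Finset.mem_filter.1 w.2).1).1
  have hl' : ∀ w : B, w.1⁻¹.toWord.length = n := fun w => by
    rw [FreeGroup.toWord_inv, FreeGroup.invRev_length, hl]
  let F : B × B → FreeGroup (Fin m) := fun p =>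
    FreeGroup.mk (p.1.1.toWord ++ [x p] ++ p.2.1⁻¹.toWord ++ [((x p).1, !(x p).2)])
  have hF : ∀ p, (F p).toWord =
      p.1.1.toWord ++ [x p] ++ p.2.1⁻¹.toWord ++ [((x p).1, !(x p).2)] := fun p => by
    rw [FreeGroup.toWord_mk, (hx p).reduce_eq]
  have hinj : Function.Injective F := by
    intro p q h
    have h1 := congrArg FreeGroup.toWord h
    rw [hF, hF] at h1
    have h2 := List.append_inj (List.append_inj_left' h1 rfl) (by simp [hl])
    refine Prod.ext (Subtype.ext (FreeGroup.toWord_injective (List.append_inj_left' h2.1 rfl)))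
      (Subtype.ext (inv_injective (FreeGroup.toWord_injective h2.2)))
  have hmem : ∀ p, F p ∈ S N C (2 * n + 2) := by
    intro p
    have hperm : p.1.1.toWord.Perm p.2.1.toWord := List.perm_iff_count.2 fun y =>
      (congrFun (Finset.mem_filter.1 p.1.2).2 y).trans
        (congrFun (Finset.mem_filter.1 p.2.2).2 y).symm
    refine ⟨hN ?_, ?_, ?_⟩
    · rw [← Abelianization.ker_of, MonoidHom.mem_ker]
      have e : F p = p.1.1 * FreeGroup.mk [x p] * p.2.1⁻¹ * (FreeGroup.mk [x p])⁻¹ := by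
        simp only [F, ← FreeGroup.mul_mk, FreeGroup.mk_toWord]
        rfl
      have e2 := ab_eq Abelianization.of hperm
      rw [FreeGroup.mk_toWord, FreeGroup.mk_toWord] at e2
      rw [e]
      simp only [map_mul, map_inv, e2]
      rw [mul_comm (Abelianization.of p.2.1)]
      simp
    · rw [FreeGroup.norm, hF]
      simp only [List.length_append, hl, hl', List.length_singleton]
      omega
    · convert hC _ (hs _ (Finset.mem_filter.1 p.1.2).1).2
        (by rw [sum_wp, FreeGroup.norm, hl]) (x p).1 using 1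
      ext i
      have e3 : (p.2.1⁻¹.toWord.countP fun y => y.1 = i) = p.1.1.toWord.countP fun y => y.1 = i := by
        rw [hperm.countP_eq, FreeGroup.toWord_inv, FreeGroup.invRev, List.countP_reverse,
          List.countP_map]
        rfl
      simp only [wp, hF, List.countP_append, e3, List.countP_singleton, Pi.add_apply,
        Pi.single_apply]
      by_cases hi : i = (x p).1
      · simp [hi]; ring
      · simp [hi, Ne.symm hi]
  have hfin := (S_fin N C (2 * n + 2)).to_subtype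
  have := Nat.card_le_card_of_injective (f := fun p => (⟨F p, hmem p⟩ : S N C (2 * n + 2)))
    (fun p q h => hinj (congrArg Subtype.val h))
  rw [Nat.card_prod, Nat.card_coe_set_eq] at this
  rw [Nat.le_sqrt]
  simpa using this

theorem shrink (C : Set (Fin m → ℝ)) (hC : IsOpenCone C) (r : Fin m → ℝ) (hr : r ∈ C) :
    ∃ C', IsOpenCone C' ∧ r ∈ C' ∧ ∃ n0 : ℝ, ∀ v ∈ C', n0 ≤ ∑ i, |v i| →
      ∀ i, v + v + Pi.single i 2 ∈ C := by
  obtain ⟨ε, hε, hb⟩ := Metric.isOpen_iff.1 hC.1 r hr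
  refine ⟨⋃ t : ℝ, ⋃ _ : 0 < t, (fun x => t • x) ⁻¹' Metric.ball r (ε / 2),
    ⟨isOpen_iUnion fun t => isOpen_iUnion fun _ =>
      Metric.isOpen_ball.preimage (continuous_const_smul t), ?_⟩, ?_,
    m * (‖r‖ + ε / 2) / (ε / 2) + 1, ?_⟩
  · intro t ht x hx
    simp only [Set.mem_iUnion, Set.mem_preimage] at hx ⊢
    obtain ⟨u, hu, hx⟩ := hx
    refine ⟨u / t, by positivity, ?_⟩
    rwa [smul_smul, div_mul_cancel₀ _ ht.ne']
  · simp only [Set.mem_iUnion, Set.mem_preimage]
    exact ⟨1, one_pos, by simpa using hε⟩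
  · intro v hv hn i
    simp only [Set.mem_iUnion, Set.mem_preimage] at hv
    obtain ⟨t, ht, hv⟩ := hv
    have h1 : ‖t • v‖ ≤ ‖r‖ + ε / 2 := (norm_lt_of_mem_ball hv).le
    have h2 : t * ∑ i, |v i| ≤ m * (‖r‖ + ε / 2) := by
      rw [Finset.mul_sum]
      refine (Finset.sum_le_card_nsmul _ _ (‖r‖ + ε / 2) fun j _ => ?_).trans (by simp [mul_add])
      refine le_trans ?_ ((norm_le_pi_norm (t • v) j).trans h1)
      simp [abs_of_pos ht]
    have h3 : t < ε / 2 := by
      by_contra hc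
      push Not at hc
      have h4 : ε / 2 * (m * (‖r‖ + ε / 2) / (ε / 2) + 1) ≤ t * ∑ i, |v i| :=
        mul_le_mul hc hn (by positivity) ht.le
      rw [mul_add, mul_div_cancel₀ _ (by positivity)] at h4
      linarith
    have h4 : t • v + Pi.single i t ∈ C := by
      apply hb
      rw [mem_ball_iff_norm] at hv ⊢
      rw [add_sub_right_comm]
      refine (norm_add_le _ _).trans_lt ?_
      rw [Pi.norm_single, Real.norm_of_nonneg ht.le]
      linarith
    convert hC.2 (2 / t) (by positivity) _ h4 using 1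
    ext j
    simp only [Pi.add_apply, Pi.smul_apply, Pi.single_apply, smul_eq_mul]
    split_ifs <;> field_simp <;> ring

theorem log_nat (a : ℕ) (ha : a ≠ 0) :
    ENNReal.log ((a : ℕ∞) : ENNReal) = (Real.log a : ℝ) := by
  rw [ENat.toENNReal_coe, ENNReal.log_pos_real (by exact_mod_cast ha) (ENNReal.natCast_ne_top a)]
  simp

theorem tau_le (hm : 2 ≤ m) (N : Subgroup (FreeGroup (Fin m))) (hN : commutator _ ≤ N)
    (C C' : Set (Fin m → ℝ)) (n0 : ℝ)
    (hC : ∀ v ∈ C', n0 ≤ ∑ i, |v i| → ∀ i, v + v + Pi.single i 2 ∈ C) : tau ⊤ C' ≤ tau N C := by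
  refine EReal.ge_of_forall_gt_iff_ge.1 fun c hc => ?_
  obtain ⟨c', hc1, hc2⟩ := EReal.lt_iff_exists_real_btwn.1 hc
  have hδ : 0 < c' - c := sub_pos.2 (EReal.coe_lt_coe_iff.1 hc1)
  have hm0 : (0 : ℝ) < m := by exact_mod_cast (by omega : 0 < m)
  have hg : Tendsto (fun R : ℝ => ((2 * ⌈R⌉₊ + 2 : ℕ) : ℝ)) atTop atTop := by
    refine tendsto_atTop_mono (fun R => ?_) tendsto_id
    have := Nat.le_ceil R
    have h0 : (0 : ℝ) ≤ ⌈R⌉₊ := Nat.cast_nonneg _
    push_cast
    simp only [id]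
    linarith
  refine le_limsup_of_frequently_le (hg.frequently ?_)
  have hlog := (tendsto_atTop_add_const_right atTop (2 : ℝ) tendsto_id).eventually
    (Real.isLittleO_log_id_atTop.bound (show 0 < (c' - c) / (4 * m) by positivity))
  refine ((frequently_lt_of_lt_limsup (by isBoundedDefault) hc2).and_eventually
    (hlog.and ((eventually_ge_atTop n0).and ((eventually_ge_atTop 1).and
      (eventually_ge_atTop (2 + 4 * |c| / (c' - c))))))).mono ?_
  rintro R ⟨h1, h2, h3, h4, h5⟩
  have hR : 0 < R := by linarith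
  have l1 := Nat.le_ceil R
  have l2 := Nat.ceil_lt_add_one hR.le
  rw [cnt_eq _ _ _ hR.le] at h1
  rw [cnt_eq _ _ _ (Nat.cast_nonneg _), Nat.ceil_natCast]
  set n := ⌈R⌉₊
  have hcore := core hm N hN C C' n (by exact_mod_cast h4.trans l1)
    fun v hv hs => hC v hv (by rw [hs]; linarith)
  set a := (S ⊤ C' n).ncard
  set b := (S N C (2 * n + 2)).ncard
  have ha : a ≠ 0 := by
    rintro ha
    rw [ha] at h1
    simp only [Nat.cast_zero, ENat.toENNReal_zero, ENNReal.log_zero] at h1
    rw [EReal.coe_mul_bot_of_pos (inv_pos.2 hR)] at h1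
    exact not_lt_bot h1
  have hb : b ≠ 0 := by
    rintro hb
    rw [hb, zero_mul] at hcore
    exact ha (by simpa using hcore)
  rw [log_nat _ ha, ← EReal.coe_mul, EReal.coe_lt_coe_iff, ← div_eq_inv_mul,
    lt_div_iff₀ hR] at h1
  rw [log_nat _ hb, ← EReal.coe_mul, EReal.coe_le_coe_iff, ← div_eq_inv_mul,
    le_div_iff₀ (by positivity)]
  have k1 : Real.log ((a : ℝ) ^ 2) ≤ Real.log (b * (((n : ℝ) + 1) ^ (2 * m)) ^ 2) :=
    Real.log_le_log (by positivity) (by exact_mod_cast hcore)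
  rw [Real.log_mul (by positivity) (by positivity), Real.log_pow, Real.log_pow,
    Real.log_pow] at k1
  have k2 : Real.log ((n : ℝ) + 1) ≤ (c' - c) / (4 * m) * (R + 2) := by
    refine (Real.log_le_log (by positivity) (by linarith : (n : ℝ) + 1 ≤ R + 2)).trans ?_
    simp only [id, Real.norm_eq_abs] at h2
    rw [abs_of_pos (by linarith : 0 < R + 2)] at h2
    exact (le_abs_self _).trans h2
  have k3 : 4 * m * Real.log ((n : ℝ) + 1) ≤ (c' - c) * (R + 2) := by
    refine (mul_le_mul_of_nonneg_left k2 (by positivity)).trans (le_of_eq ?_)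
    field_simp
  have k4 : 4 * |c| ≤ (R - 2) * (c' - c) := by
    rw [← div_le_iff₀ hδ]; linarith
  have k5 : c * (2 * n + 2 - 2 * R) ≤ |c| * 4 :=
    (mul_le_mul_of_nonneg_right (le_abs_self c) (by linarith)).trans
      (mul_le_mul_of_nonneg_left (by linarith) (abs_nonneg c))
  push_cast at k1 ⊢
  nlinarith

theorem result (m : ℕ) (hm : 2 ≤ m) (N : Subgroup (FreeGroup (Fin m)))
    (hN : commutator (FreeGroup (Fin m)) ≤ N) (r : Fin m → ℝ) : psi N r = psi ⊤ r := by
  apply le_antisymm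
  · refine iInf_mono fun C => iInf_mono fun _ => limsup_le_limsup ?_
    filter_upwards [eventually_ge_atTop 0] with R hR
    refine mul_le_mul_of_nonneg_left (ENNReal.log_monotone (ENat.toENNReal_mono ?_))
      (EReal.coe_nonneg.2 (inv_nonneg.2 hR))
    exact Set.encard_le_encard fun w hw => ⟨trivial, hw.2⟩
  · refine le_iInf₂ fun C hC => ?_
    obtain ⟨C', h1, h2, n0, h3⟩ := shrink C hC.1 r hC.2
    exact (iInf₂_le C' ⟨h1, h2⟩).trans (tau_le hm N hN C C' n0 h3)

end Pool.Agent.Results.MP_dc78ae_al.Commutator
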